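import Mathlib

set_option autoImplicit false

/-! Monotonicity in `n` of the Kezdy-Snevily numbers for `k ≥ n` and for `k (k-1) ≤ n`. -/

namespace Pool.Agent.Hhelper49.KezSne

/-- Number of permutations with distinct sums. -/
noncomputable def Phi (n k : ℕ) (a : Fin k → ZMod n) : ℕ :=
  {π : Equiv.Perm (Fin k) |
    Function.Injective (fun i : Fin k => a (π i) + (((i : ℕ)) : ZMod n))}.ncard

theorem mono_of_forall (n k : ℕ)
    (h : ∀ a : Fin k → ZMod (n + 1), ∃ a' : Fin k → ZMod n, Phi n k a' ≤ Phi (n + 1) k a) :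
    (⨅ a : Fin k → ZMod n, Phi n k a) ≤ ⨅ a : Fin k → ZMod (n + 1), Phi (n + 1) k a := by
  apply le_ciInf
  intro a
  obtain ⟨a', ha'⟩ := h a
  exact (ciInf_le (OrderBot.bddBelow _) a').trans ha'

/-- The gap argument. -/
theorem gap (n k : ℕ) (hn : 0 < n) (hkn : k ≤ n) (h : k * (k - 1) ≤ n)
    (a : Fin k → ZMod (n + 1)) :
    ∃ a' : Fin k → ZMod n, Phi n k a' ≤ Phi (n + 1) k a := by
  have : NeZero n := ⟨hn.ne'⟩
  -- a window of length `k - 1` free of values of `a`
  obtain ⟨c, hc⟩ : ∃ c : ZMod (n + 1), ∀ j : Fin k, ∀ i : Fin (k - 1), a j ≠ c + (i : ℕ) := by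
    by_contra hcon
    push Not at hcon
    have hsurj : Function.Surjective (fun q : Fin k × Fin (k - 1) => a q.1 - ((q.2 : ℕ) : ZMod (n + 1))) := by
      intro c
      obtain ⟨j, i, hji⟩ := hcon c
      exact ⟨(j, i), by simp [hji]⟩
    have := Fintype.card_le_of_surjective _ hsurj
    rw [ZMod.card, Fintype.card_prod, Fintype.card_fin, Fintype.card_fin] at this
    omega
  -- lifts
  let b : Fin k → ℕ := fun j => (a j - (c + ((k - 1 : ℕ) : ZMod (n + 1)))).val
  have hbv : ∀ j, ((b j : ℕ) : ZMod (n + 1)) = a j - (c + ((k - 1 : ℕ) : ZMod (n + 1))) := by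
    intro j
    simp only [b]
    rw [ZMod.natCast_zmod_val]
  have hb : ∀ j, b j + k ≤ n + 1 := by
    intro j
    by_contra hcon
    push Not at hcon
    have hlt : b j < n + 1 := ZMod.val_lt _
    -- then a j = c + i with i = b j + (k - 1) - (n + 1)
    have hi : b j + (k - 1) - (n + 1) < k - 1 := by omega
    apply hc j ⟨b j + (k - 1) - (n + 1), hi⟩
    have h1 : a j = c + (((k - 1 : ℕ) : ZMod (n + 1)) + (b j : ZMod (n + 1))) := by
      rw [hbv j]
      ring
    rw [h1]
    congr 1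
    have h2 : ((b j + (k - 1) - (n + 1) : ℕ) : ZMod (n + 1)) + ((n + 1 : ℕ) : ZMod (n + 1)) =
        ((k - 1 : ℕ) : ZMod (n + 1)) + (b j : ZMod (n + 1)) := by
      rw [← Nat.cast_add, ← Nat.cast_add]
      congr 1
      omega
    rw [ZMod.natCast_self, add_zero] at h2
    exact h2.symm
  refine ⟨fun j => ((b j : ℕ) : ZMod n), ?_⟩
  unfold Phi
  apply Set.ncard_le_ncard _ (Set.toFinite _)
  intro π hπ
  rw [Set.mem_setOf_eq] at hπ ⊢
  intro i j hij
  apply hπ
  have h1 : ((b (π i) + (i : ℕ) : ℕ) : ZMod (n + 1)) = ((b (π j) + (j : ℕ) : ℕ) : ZMod (n + 1)) := by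
    push_cast
    rw [hbv, hbv]
    have hij' : a (π i) + ((i : ℕ) : ZMod (n + 1)) = a (π j) + ((j : ℕ) : ZMod (n + 1)) := hij
    calc a (π i) - (c + ((k - 1 : ℕ) : ZMod (n + 1))) + ((i : ℕ) : ZMod (n + 1))
        = (a (π i) + ((i : ℕ) : ZMod (n + 1))) - (c + ((k - 1 : ℕ) : ZMod (n + 1))) := by ring
      _ = (a (π j) + ((j : ℕ) : ZMod (n + 1))) - (c + ((k - 1 : ℕ) : ZMod (n + 1))) := by rw [hij']
      _ = _ := by ring
  rw [ZMod.natCast_eq_natCast_iff'] at h1
  have hi := hb (π i)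
  have hj := hb (π j)
  rw [Nat.mod_eq_of_lt (by omega), Nat.mod_eq_of_lt (by omega)] at h1
  show ((b (π i) : ℕ) : ZMod n) + ((i : ℕ) : ZMod n) = ((b (π j) : ℕ) : ZMod n) + ((j : ℕ) : ZMod n)
  rw [← Nat.cast_add, ← Nat.cast_add, h1]

/-- For `k ≥ n ≥ 2` some vector has no good permutation. -/
theorem many (n k : ℕ) (hn : 2 ≤ n) (hk : n ≤ k) : ∃ a : Fin k → ZMod n, Phi n k a = 0 := by
  have : NeZero n := ⟨by omega⟩
  rcases eq_or_lt_of_le hk with rfl | hlt
  · let z : Fin n := ⟨0, by omega⟩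
    refine ⟨fun j => if j = z then 1 else 0, ?_⟩
    unfold Phi
    rw [Set.ncard_eq_zero (Set.toFinite _), Set.eq_empty_iff_forall_notMem]
    intro π hπ
    rw [Set.mem_setOf_eq] at hπ
    have hbij : Function.Bijective (fun i : Fin n =>
        (if π i = z then (1 : ZMod n) else 0) + (((i : ℕ)) : ZMod n)) :=
      (Fintype.bijective_iff_injective_and_card _).mpr ⟨hπ, by rw [Fintype.card_fin, ZMod.card]⟩
    have hbij2 : Function.Bijective (fun i : Fin n => (((i : ℕ)) : ZMod n)) := by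
      refine (Fintype.bijective_iff_injective_and_card _).mpr ⟨?_, by rw [Fintype.card_fin, ZMod.card]⟩
      intro i j hij
      have hij' : ((i : ℕ) : ZMod n) = ((j : ℕ) : ZMod n) := hij
      rw [ZMod.natCast_eq_natCast_iff', Nat.mod_eq_of_lt i.isLt, Nat.mod_eq_of_lt j.isLt] at hij'
      exact Fin.ext hij'
    have h1 : ∑ i : Fin n, ((if π i = z then (1 : ZMod n) else 0) + (((i : ℕ)) : ZMod n)) =
        ∑ x : ZMod n, x := hbij.sum_comp (fun x => x)
    have h2 : ∑ i : Fin n, (((i : ℕ)) : ZMod n) = ∑ x : ZMod n, x := hbij2.sum_comp (fun x => x)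
    rw [Finset.sum_add_distrib, h2] at h1
    have h3 : ∑ i : Fin n, (if π i = z then (1 : ZMod n) else 0) = 1 := by
      rw [Equiv.sum_comp π (fun j => if j = z then (1 : ZMod n) else 0)]
      simp
    rw [h3] at h1
    have h4 : (1 : ZMod n) = 0 := by
      have : (1 : ZMod n) + ∑ x : ZMod n, x = 0 + ∑ x : ZMod n, x := by rw [h1, zero_add]
      exact add_right_cancel this
    have : Fact (1 < n) := ⟨hn⟩
    exact one_ne_zero h4
  · refine ⟨fun _ => 0, ?_⟩
    unfold Phi
    rw [Set.ncard_eq_zero (Set.toFinite _), Set.eq_empty_iff_forall_notMem]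
    intro π hπ
    rw [Set.mem_setOf_eq] at hπ
    have := Fintype.card_le_of_injective _ hπ
    rw [Fintype.card_fin, ZMod.card] at this
    omega

theorem mono_range (n k : ℕ) (hn : 0 < n) (h : n ≤ k ∨ k * (k - 1) ≤ n) :
    (⨅ a : Fin k → ZMod n, Phi n k a) ≤ ⨅ a : Fin k → ZMod (n + 1), Phi (n + 1) k a := by
  by_cases hkn : n ≤ k ∧ 2 ≤ n
  · obtain ⟨a, ha⟩ := many n k hkn.2 hkn.1
    have : (⨅ a : Fin k → ZMod n, Phi n k a) ≤ 0 := by
      rw [← ha]
      exact ciInf_le (OrderBot.bddBelow _) a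
    exact this.trans (Nat.zero_le _)
  · by_cases hk1 : k ≤ 1
    · exact mono_of_forall n k (gap n k hn (by omega) (by
        have : k = 0 ∨ k = 1 := by omega
        rcases this with rfl | rfl <;> simp))
    · by_cases hn1 : n = 1
      · subst hn1
        -- k ≥ 2 > 1 = n
        have : (⨅ a : Fin k → ZMod 1, Phi 1 k a) ≤ 0 := by
          have h0 : Phi 1 k (fun _ => 0) = 0 := by
            unfold Phi
            rw [Set.ncard_eq_zero (Set.toFinite _), Set.eq_empty_iff_forall_notMem]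
            intro π hπ
            rw [Set.mem_setOf_eq] at hπ
            have := Fintype.card_le_of_injective _ hπ
            rw [Fintype.card_fin, ZMod.card] at this
            omega
          rw [← h0]
          exact ciInf_le (OrderBot.bddBelow _) _
        exact this.trans (Nat.zero_le _)
      · have hkn' : k ≤ n := by omega
        rcases h with h | h
        · exact absurd ⟨h, by omega⟩ hkn
        · exact mono_of_forall n k (gap n k hn hkn' h)

end Pool.Agent.Hhelper49.KezSne
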